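import Pool.Agent.Y262.QE.Stm

/-!
# Project QE: weak solutions of `p'' + k p = 0` are classical
-/

set_option autoImplicit false

open Set Filter Topology MeasureTheory
open scoped Real ContDiff

noncomputable section

namespace Pool.Agent.Y785.QE

open Pool.Agent.Y262.QE

section

variable {k : ℝ} {C S : ℝ → ℝ}

theorem smooth_CS (hC : ∀ x, HasDerivAt C (-k * S x) x) (hS : ∀ x, HasDerivAt S (C x) x) :
    ContDiff ℝ ∞ C ∧ ContDiff ℝ ∞ S := by
  have dC : deriv C = fun x => -k * S x := funext fun x => (hC x).deriv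
  have dS : deriv S = C := funext fun x => (hS x).deriv
  have key : ∀ n : ℕ, ContDiff ℝ n C ∧ ContDiff ℝ n S := by
    intro n
    induction n with
    | zero =>
      refine ⟨contDiff_zero.2 ?_, contDiff_zero.2 ?_⟩
      · exact continuous_iff_continuousAt.2 fun x => (hC x).continuousAt
      · exact continuous_iff_continuousAt.2 fun x => (hS x).continuousAt
    | succ n ih =>
      constructor
      · push_cast
        rw [contDiff_succ_iff_deriv]
        refine ⟨fun x => (hC x).differentiableAt, by simp, ?_⟩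
        rw [dC]
        exact contDiff_const.mul ih.2
      · push_cast
        rw [contDiff_succ_iff_deriv]
        refine ⟨fun x => (hS x).differentiableAt, by simp, ?_⟩
        rw [dS]
        exact ih.1
  exact ⟨contDiff_infty.2 fun n => (key n).1, contDiff_infty.2 fun n => (key n).2⟩

theorem prim {f : ℝ → ℝ} (hf : ContDiff ℝ ∞ f) :
    ContDiff ℝ ∞ (fun x => ∫ t in (0 : ℝ)..x, f t) ∧
      ∀ x, HasDerivAt (fun x => ∫ t in (0 : ℝ)..x, f t) (f x) x := by
  have h : ∀ x, HasDerivAt (fun x => ∫ t in (0 : ℝ)..x, f t) (f x) x := fun x =>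
    intervalIntegral.integral_hasDerivAt_right (hf.continuous.intervalIntegrable _ _)
      (hf.continuous.stronglyMeasurableAtFilter _ _) hf.continuous.continuousAt
  refine ⟨?_, h⟩
  rw [contDiff_infty_iff_deriv]
  refine ⟨fun x => (h x).differentiableAt, ?_⟩
  rw [show deriv (fun x => ∫ t in (0 : ℝ)..x, f t) = f from funext fun x => (h x).deriv]
  exact hf

/-- the support of a test function is contained in a compact interval of `(0, L)` -/
theorem tst_Icc {L : ℝ} (hL : 0 < L) {ζ : ℝ → ℝ} (hζ : Tst L ζ) :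
    ∃ a b : ℝ, 0 < a ∧ a < b ∧ b < L ∧ (∀ x, x ≤ a → ζ x = 0) ∧ ∀ x, b ≤ x → ζ x = 0 := by
  rcases (tsupport ζ).eq_empty_or_nonempty with he | hne
  · have h0 : ∀ x, ζ x = 0 := by
      intro x
      by_contra h
      have : x ∈ tsupport ζ := subset_tsupport _ h
      rw [he] at this
      exact this
    exact ⟨L / 3, L / 2, by positivity, by linarith, by linarith, fun x _ => h0 x, fun x _ => h0 x⟩
  · obtain ⟨a, ha⟩ := (hζ.2.1 : IsCompact (tsupport ζ)).exists_isLeast hne
    obtain ⟨b, hb⟩ := (hζ.2.1 : IsCompact (tsupport ζ)).exists_isGreatest hne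
    have ha' := hζ.2.2 ha.1
    have hb' := hζ.2.2 hb.1
    have hab : a ≤ b := ha.2 hb.1
    refine ⟨a / 2, (b + L) / 2, by linarith [ha'.1], by linarith [ha'.1, hb'.2], by linarith [hb'.2],
      fun x hx => ?_, fun x hx => ?_⟩
    · by_contra h
      have := ha.2 (subset_tsupport _ h)
      linarith [ha'.1]
    · by_contra h
      have := hb.2 (subset_tsupport _ h)
      linarith [hb'.2]

theorem set_int {L : ℝ} {ζ : ℝ → ℝ} (hζ : Tst L ζ) (f : ℝ → ℝ) :
    ∫ x in Ioo 0 L, ζ x * f x = ∫ x, ζ x * f x := by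
  refine setIntegral_eq_integral_of_forall_compl_eq_zero fun x hx => ?_
  have : ζ x = 0 := by
    by_contra h
    exact hx (hζ.2.2 (subset_tsupport _ h))
  simp [this]

theorem claimA (hC : ∀ x, HasDerivAt C (-k * S x) x) (hS : ∀ x, HasDerivAt S (C x) x)
    (hC0 : C 0 = 1) (hS0 : S 0 = 0) {L : ℝ} (hL : 0 < L) {ζ : ℝ → ℝ} (hζ : Tst L ζ)
    (e1 : ∫ x in Ioo 0 L, ζ x * C x = 0) (e2 : ∫ x in Ioo 0 L, ζ x * S x = 0) :
    ∃ η : ℝ → ℝ, Tst L η ∧ ∀ x, iteratedDeriv 2 η x + k * η x = ζ x := by
  obtain ⟨sC, sS⟩ := smooth_CS hC hS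
  obtain ⟨sA, dA⟩ := prim (sC.mul hζ.1)
  obtain ⟨sB, dB⟩ := prim (sS.mul hζ.1)
  obtain ⟨a, b, ha, hab, hb, za, zb⟩ := tst_Icc hL hζ
  set A : ℝ → ℝ := fun x => ∫ t in (0 : ℝ)..x, C t * ζ t with hA
  set B : ℝ → ℝ := fun x => ∫ t in (0 : ℝ)..x, S t * ζ t with hB
  have hcs : ∀ x, C x ^ 2 + k * S x ^ 2 = 1 := by
    have hd : ∀ x, HasDerivAt (fun x => C x ^ 2 + k * S x ^ 2) 0 x := by
      intro x
      have := ((hC x).pow 2).add (((hS x).pow 2).const_mul k)
      refine this.congr_deriv ?_
      push_cast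
      ring
    intro x
    have hc := is_const_of_deriv_eq_zero (f := fun x => C x ^ 2 + k * S x ^ 2)
      (fun y => (hd y).differentiableAt) (fun y => (hd y).deriv) x 0
    simp only [hC0, hS0] at hc
    rw [hc]
    norm_num
  -- vanishing on the left and on the right
  have left : ∀ f : ℝ → ℝ, ∀ x, x ≤ a → ∫ t in (0 : ℝ)..x, f t * ζ t = 0 := by
    intro f x hx
    rw [intervalIntegral.integral_congr (g := fun _ => (0 : ℝ))]
    · simp
    · intro t ht
      have : t ≤ a := by
        rcases le_total 0 x with h | h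
        · rw [uIcc_of_le h] at ht
          exact ht.2.trans hx
        · rw [uIcc_of_ge h] at ht
          linarith [ht.2]
      simp [za t this]
  have right : ∀ f : ℝ → ℝ, Continuous f → ∀ x, b ≤ x → ∫ t in (0 : ℝ)..x, f t * ζ t
      = ∫ x in Ioo 0 L, ζ x * f x := by
    intro f hf x hx
    rw [set_int hζ, intervalIntegral.integral_of_le (by linarith)]
    rw [setIntegral_eq_integral_of_forall_compl_eq_zero]
    · exact integral_congr_ae (Eventually.of_forall fun t => mul_comm _ _)
    · intro t ht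
      have : ζ t = 0 := by
        simp only [mem_Ioc, not_and_or, not_lt, not_le] at ht
        rcases ht with h | h
        · exact za t (by linarith)
        · exact zb t (by linarith)
      simp [this]
  have A0 : ∀ x, x ≤ a ∨ b ≤ x → A x = 0 := by
    rintro x (h | h)
    · exact left C x h
    · exact (right C sC.continuous x h).trans e1
  have B0 : ∀ x, x ≤ a ∨ b ≤ x → B x = 0 := by
    rintro x (h | h)
    · exact left S x h
    · exact (right S sS.continuous x h).trans e2
  have d1 : ∀ x, HasDerivAt (fun x => S x * A x - C x * B x) (C x * A x + k * S x * B x) x := by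
    intro x
    have := ((hS x).mul (dA x)).sub ((hC x).mul (dB x))
    refine this.congr_deriv ?_
    ring
  have d2 : ∀ x, HasDerivAt (fun x => C x * A x + k * S x * B x)
      (-k * (S x * A x - C x * B x) + ζ x) x := by
    intro x
    have := ((hC x).mul (dA x)).add (((hS x).const_mul k).mul (dB x))
    refine this.congr_deriv ?_
    linear_combination (ζ x) * hcs x
  have hsub : tsupport (fun x => S x * A x - C x * B x) ⊆ Icc a b := by
    refine closure_minimal ?_ isClosed_Icc
    intro x hx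
    by_contra h
    simp only [mem_Icc, not_and_or, not_le] at h
    refine hx ?_
    have h' : x ≤ a ∨ b ≤ x := h.imp le_of_lt le_of_lt
    simp [A0 x h', B0 x h']
  refine ⟨fun x => S x * A x - C x * B x, ⟨(sS.mul sA).sub (sC.mul sB), ?_, ?_⟩, ?_⟩
  · exact isCompact_Icc.of_isClosed_subset (isClosed_tsupport _) hsub
  · exact hsub.trans fun x hx => ⟨by linarith [hx.1], by linarith [hx.2]⟩
  · intro x
    have e : deriv (fun x => S x * A x - C x * B x) = fun x => C x * A x + k * S x * B x :=
      funext fun y => (d1 y).deriv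
    rw [iteratedDeriv_succ, iteratedDeriv_one, e, (d2 x).deriv]
    ring

theorem int3 {μ : Measure ℝ} {f g h : ℝ → ℝ} (hf : Integrable f μ) (hg : Integrable g μ)
    (hh : Integrable h μ) (a b c : ℝ) :
    ∫ x, (a * f x + b * g x + c * h x) ∂μ
      = a * (∫ x, f x ∂μ) + b * (∫ x, g x ∂μ) + c * ∫ x, h x ∂μ := by
  have e1 : ∫ x, (a * f x + b * g x + c * h x) ∂μ
      = (∫ x, (a * f x + b * g x) ∂μ) + ∫ x, c * h x ∂μ :=
    integral_add (f := fun x => a * f x + b * g x) (g := fun x => c * h x)
      ((hf.const_mul a).add (hg.const_mul b)) (hh.const_mul c)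
  have e2 : ∫ x, (a * f x + b * g x) ∂μ = (∫ x, a * f x ∂μ) + ∫ x, b * g x ∂μ :=
    integral_add (f := fun x => a * f x) (g := fun x => b * g x) (hf.const_mul a) (hg.const_mul b)
  rw [e1, e2, integral_const_mul, integral_const_mul, integral_const_mul]

/-- positivity of the Gram form -/
theorem gram_pos (hC : ∀ x, HasDerivAt C (-k * S x) x) (hS : ∀ x, HasDerivAt S (C x) x)
    (hcs : ∀ x, C x ^ 2 + k * S x ^ 2 = 1) (x₀ : ℝ) (φ : ContDiffBump x₀) (a b : ℝ)
    (hab : a ≠ 0 ∨ b ≠ 0) : 0 < ∫ x, φ x * (a * C x + b * S x) ^ 2 := by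
  obtain ⟨sC, sS⟩ := smooth_CS hC hS
  have hex : ∃ x, φ x * (a * C x + b * S x) ^ 2 ≠ 0 := by
    by_contra hno
    push Not at hno
    have hz : ∀ᶠ x in 𝓝 x₀, a * C x + b * S x = 0 := by
      filter_upwards [Metric.ball_mem_nhds x₀ φ.rIn_pos] with x hx
      have h1 := φ.one_of_mem_closedBall (Metric.ball_subset_closedBall hx)
      have h2 := hno x
      rw [h1, one_mul] at h2
      exact pow_eq_zero_iff (two_ne_zero) |>.1 h2
    have hd : HasDerivAt (fun x => a * C x + b * S x) (a * (-k * S x₀) + b * C x₀) x₀ :=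
      ((hC x₀).const_mul a).add ((hS x₀).const_mul b)
    have hd0 : HasDerivAt (fun x => a * C x + b * S x) 0 x₀ :=
      (hasDerivAt_const x₀ (0 : ℝ)).congr_of_eventuallyEq hz
    have e1 := hd.unique hd0
    have e2 := hz.self_of_nhds
    have ha : a = 0 := by linear_combination C x₀ * e2 - S x₀ * e1 - a * hcs x₀
    have hb : b = 0 := by linear_combination k * S x₀ * e2 + C x₀ * e1 - b * hcs x₀
    rcases hab with h | h
    · exact h ha
    · exact h hb
  obtain ⟨x, hx⟩ := hex
  refine Continuous.integral_pos_of_hasCompactSupport_nonneg_nonzero (x := x) ?_ ?_ ?_ hx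
  · have := φ.continuous
    have := sC.continuous
    have := sS.continuous
    fun_prop
  · exact φ.hasCompactSupport.mul_right
  · intro y
    exact mul_nonneg φ.nonneg (sq_nonneg _)

end

/-- **weak solutions are classical** -/
theorem reg : StCS → StReg := by
  rintro ⟨-, -, hC', hS', h0'⟩ L hL k p hp hη
  have hC := hC' k
  have hS := hS' k
  have hC0 := (h0' k).1
  have hS0 := (h0' k).2
  generalize cs k = C at *
  generalize sn k = S at *
  obtain ⟨sC, sS⟩ := smooth_CS hC hS
  have cC := sC.continuous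
  have cS := sS.continuous
  have hcs : ∀ x, C x ^ 2 + k * S x ^ 2 = 1 := by
    have hd : ∀ x, HasDerivAt (fun x => C x ^ 2 + k * S x ^ 2) 0 x := by
      intro x
      have := ((hC x).pow 2).add (((hS x).pow 2).const_mul k)
      refine this.congr_deriv ?_
      push_cast
      ring
    intro x
    have hc := is_const_of_deriv_eq_zero (f := fun x => C x ^ 2 + k * S x ^ 2)
      (fun y => (hd y).differentiableAt) (fun y => (hd y).deriv) x 0
    simp only [hC0, hS0] at hc
    rw [hc]
    norm_num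
  -- the weight
  let φ : ContDiffBump (L / 2) := ⟨L / 8, L / 4, by positivity, by linarith⟩
  have hφT : ∀ f : ℝ → ℝ, ContDiff ℝ ∞ f → Tst L (fun x => φ x * f x) := by
    intro f hf
    refine ⟨φ.contDiff.mul hf, φ.hasCompactSupport.mul_right, ?_⟩
    refine (tsupport_mul_subset_left (f := fun x => φ x) (g := f)).trans ?_
    rw [φ.tsupport_eq]
    intro x hx
    rw [Real.closedBall_eq_Icc] at hx
    have h1 : φ.rOut = L / 4 := rfl
    rw [h1] at hx
    exact ⟨by linarith [hx.1], by linarith [hx.2]⟩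
  have hip : IntegrableOn p (Ioo 0 L) := hp.integrable (by norm_num)
  -- integrability of `ζ f`
  have hi1 : ∀ ζ f : ℝ → ℝ, Tst L ζ → Continuous f → Integrable (fun x => ζ x * f x) := by
    intro ζ f hζ hf
    exact (hζ.1.continuous.mul hf).integrable_of_hasCompactSupport hζ.2.1.mul_right
  have hi2 : ∀ ζ : ℝ → ℝ, Tst L ζ → IntegrableOn (fun x => ζ x * p x) (Ioo 0 L) := by
    intro ζ hζ
    obtain ⟨M, hM⟩ := hζ.1.continuous.bounded_above_of_compact_support hζ.2.1
    exact hip.bdd_mul hζ.1.continuous.aestronglyMeasurable (Eventually.of_forall hM)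
  have hφC := hφT C sC
  have hφS := hφT S sS
  -- the Gram matrix
  set g11 : ℝ := ∫ x, φ x * C x * C x with h11
  set g12 : ℝ := ∫ x, φ x * C x * S x with h12
  set g22 : ℝ := ∫ x, φ x * S x * S x with h22
  have i11 := hi1 _ _ hφC cC
  have i12 := hi1 _ _ hφC cS
  have i22 := hi1 _ _ hφS cS
  have hQ : ∀ a b : ℝ, ∫ x, φ x * (a * C x + b * S x) ^ 2
      = a ^ 2 * g11 + 2 * a * b * g12 + b ^ 2 * g22 := by
    intro a b
    rw [h11, h12, h22, ← int3 i11 i12 i22]
    refine integral_congr_ae (Eventually.of_forall fun x => ?_)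
    simp only
    ring
  have hg22 : 0 < g22 := by
    have := gram_pos hC hS hcs (L / 2) φ 0 1 (Or.inr one_ne_zero)
    rw [hQ] at this
    linarith
  have hD : 0 < g11 * g22 - g12 ^ 2 := by
    have := gram_pos hC hS hcs (L / 2) φ g22 (-g12) (Or.inl hg22.ne')
    rw [hQ] at this
    have h2 : 0 < g22 * (g11 * g22 - g12 ^ 2) := by linarith
    exact (mul_pos_iff_of_pos_left hg22).1 h2
  set D : ℝ := g11 * g22 - g12 ^ 2 with hDd
  set P1 : ℝ := ∫ x in Ioo 0 L, φ x * C x * p x with hP1
  set P2 : ℝ := ∫ x in Ioo 0 L, φ x * S x * p x with hP2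
  set α : ℝ := (g22 * P1 - g12 * P2) / D with hα
  set β : ℝ := (g11 * P2 - g12 * P1) / D with hβ
  refine ⟨α, β, ?_⟩
  have main : ∀ ζ : ℝ → ℝ, Tst L ζ →
      ∫ x in Ioo 0 L, ζ x * p x = α * (∫ x, ζ x * C x) + β * ∫ x, ζ x * S x := by
    intro ζ hζ
    set u1 : ℝ := ∫ x, ζ x * C x with hu1
    set u2 : ℝ := ∫ x, ζ x * S x with hu2
    set c1 : ℝ := (g22 * u1 - g12 * u2) / D with hc1
    set c2 : ℝ := (g11 * u2 - g12 * u1) / D with hc2
    have hT : Tst L (fun x => ζ x - φ x * (c1 * C x + c2 * S x)) := by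
      have h1 := hφT (fun x => c1 * C x + c2 * S x)
        ((contDiff_const.mul sC).add (contDiff_const.mul sS))
      refine ⟨hζ.1.sub h1.1, hζ.2.1.sub h1.2.1, ?_⟩
      exact (tsupport_sub _ _).trans (union_subset hζ.2.2 h1.2.2)
    have iC := hi1 ζ C hζ cC
    have iS := hi1 ζ S hζ cS
    have e1 : ∫ x in Ioo 0 L, (ζ x - φ x * (c1 * C x + c2 * S x)) * C x = 0 := by
      rw [set_int hT]
      have : ∫ x, (ζ x - φ x * (c1 * C x + c2 * S x)) * C x
          = 1 * u1 + (-c1) * g11 + (-c2) * g12 := by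
        rw [hu1, h11, h12, ← int3 iC i11 i12]
        refine integral_congr_ae (Eventually.of_forall fun x => ?_)
        simp only
        ring
      rw [this, hc1, hc2]
      field_simp
      rw [hDd]
      ring
    have e2 : ∫ x in Ioo 0 L, (ζ x - φ x * (c1 * C x + c2 * S x)) * S x = 0 := by
      rw [set_int hT]
      have : ∫ x, (ζ x - φ x * (c1 * C x + c2 * S x)) * S x
          = 1 * u2 + (-c1) * g12 + (-c2) * g22 := by
        rw [hu2, h12, h22, ← int3 iS i12 i22]
        refine integral_congr_ae (Eventually.of_forall fun x => ?_)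
        simp only
        ring
      rw [this, hc1, hc2]
      field_simp
      rw [hDd]
      ring
    obtain ⟨η, hηT, hηe⟩ := claimA hC hS hC0 hS0 hL hT e1 e2
    have h0 := hη η hηT
    simp only [hηe] at h0
    have j1 := hi2 ζ hζ
    have j2 := hi2 _ hφC
    have j3 := hi2 _ hφS
    have : ∫ x in Ioo 0 L, (ζ x - φ x * (c1 * C x + c2 * S x)) * p x
        = 1 * (∫ x in Ioo 0 L, ζ x * p x) + (-c1) * P1 + (-c2) * P2 := by
      rw [hP1, hP2, ← int3 j1 j2 j3]
      refine integral_congr_ae (Eventually.of_forall fun x => ?_)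
      simp only
      ring
    rw [this] at h0
    have : ∫ x in Ioo 0 L, ζ x * p x = c1 * P1 + c2 * P2 := by linarith
    rw [this, hc1, hc2, hα, hβ]
    field_simp
    ring
  have hloc : LocallyIntegrableOn (fun x => p x - (α * C x + β * S x)) (Ioo 0 L) := by
    refine LocallyIntegrableOn.sub hip.locallyIntegrableOn ?_
    refine (Continuous.locallyIntegrable ?_).locallyIntegrableOn _
    fun_prop
  have := isOpen_Ioo.ae_eq_zero_of_integral_contDiff_smul_eq_zero hloc (fun g g1 g2 g3 => by
    have hT : Tst L g := ⟨g1, g2, g3⟩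
    have h1 : ∫ x, g x • (p x - (α * C x + β * S x))
        = ∫ x in Ioo 0 L, g x * (p x - (α * C x + β * S x)) := by
      rw [set_int hT]
      simp only [smul_eq_mul]
    rw [h1]
    have h2 : ∫ x in Ioo 0 L, g x * (p x - (α * C x + β * S x))
        = 1 * (∫ x in Ioo 0 L, g x * p x) + (-α) * (∫ x in Ioo 0 L, g x * C x) +
          (-β) * ∫ x in Ioo 0 L, g x * S x := by
      rw [← int3 (hi2 g hT) (hi1 g C hT cC).integrableOn (hi1 g S hT cS).integrableOn]
      refine integral_congr_ae (Eventually.of_forall fun x => ?_)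
      simp only
      ring
    rw [h2, main g hT, set_int hT, set_int hT]
    ring)
  rw [ae_restrict_iff' measurableSet_Ioo]
  filter_upwards [this] with x hx hxI
  have := hx hxI
  linarith

end Pool.Agent.Y785.QE
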